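import Pool.Agent.Helper13.UK.V

/-! Growing the active part of the diagram level by level. -/

set_option autoImplicit false
namespace Pool.Agent.Helper50.UK
variable {n : ℕ}

namespace Code

/-- The statement of the pair flip for a code. -/
def PairFlip (S : Code n) : Prop :=
  ∀ (V Sm₂ Y α β : Set (ZMod (2 * n))) (x y : ZMod (2 * n)) (ov : ZMod (2 * n) → Bool)
    (f : ZMod (2 * n) × Bool → Bool),
    S.MC V → S.MC Sm₂ → Sm₂ ⊆ V → S.Closed Sm₂ Y →
    S.IsLoop V α x → S.IsLoop V β y → Disjoint α β →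
    α ⊆ Y → β ⊆ Y →
    (∀ q ∈ α, q ∈ V → q ≠ x → q ∈ Sm₂) → (∀ q ∈ β, q ∈ V → q ≠ y → q ∈ Sm₂) →
    S.IsSide α f → f (y, true) = false →
    (∀ q, ov (S.mate q) = !ov q) →
    (∀ q, q ∉ V → (q ∈ α ∨ q ∈ β) → S.mate q ∈ Y → S.mate q ∉ α → S.mate q ∉ β →
      ov q = true) →
    (∀ (q : ZMod (2 * n)) (l : ℕ), q ∈ S.Crs V α β → f (q, true) = true → 0 < l →
      (S.nxt V)^[l] q ∈ S.Crs V α β →
      (∀ l', 0 < l' → l' < l → (S.nxt V)^[l'] q ∉ S.Crs V α β) →
      ov ((S.nxt V)^[l] q) = ov q) →
    (∀ ov' : ZMod (2 * n) → Bool, (∀ q, ov' (S.mate q) = !ov' q) →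
      (∀ q, q ∉ V → q ∈ α → S.mate q ∈ β → ov' q = true) →
      (∀ q, (q ∈ V ∨ (¬ (q ∈ α ∧ S.mate q ∈ β) ∧ ¬ (q ∈ β ∧ S.mate q ∈ α))) → ov' q = ov q) →
      S.Good Sm₂ Y ov') →
    S.Good Sm₂ Y ov

variable (S : Code n)

theorem bal_cls [NeZero n] {V : Set (ZMod (2 * n))} (hV : S.MaxNC V) (x : ZMod (2 * n)) :
    S.Bal (S.cls V x) := by
  have hm : ∀ e e' : ZMod (2 * n), S.Same V e e' → (e ∈ S.cls V x ↔ e' ∈ S.cls V x) :=
    fun e e' h => ⟨fun h1 => Same.trans h1 h, fun h1 => Same.trans h1 (Same.symm h)⟩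
  intro q
  by_cases hq : q ∈ V
  · have h1 := hm _ _ (S.same_turn hV.1 hq)
    have h2 := hm _ _ (S.same_turn hV.1 ((hV.1.mc q).2 hq))
    rw [S.mate_mate] at h2
    rw [← h1, ← h2]
    exact iff_comm
  · have h1 := hm _ _ (S.same_straight hV.1 hq)
    have h2 := hm _ _ (S.same_straight hV.1 (fun h => hq ((hV.1.mc q).1 h)))
    exact iff_of_true h1.symm h2.symm

/-- A single simple loop. -/
theorem root_good {S : Code n} {V α : Set (ZMod (2 * n))} {x : ZMod (2 * n)} (hV : S.MC V)
    (hα : S.IsLoop V α x) (ov : ZMod (2 * n) → Bool) : S.Good V α ov := by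
  intro G _ r hr
  have hα1 : S.Closed V α := hα.closed
  have hstep : ∀ e, e ∈ α → col r (S.nxt V e) = col r e := by
    intro e he
    by_cases hs : e + 1 ∈ V
    · rw [S.nxt_pos hs]
      have := hr.smooth _ hs
      simpa using this
    · rw [S.nxt_neg hs]
      have hm : e + 1 ∈ α := (hα1.straight (q := e + 1) hs).2 (by simpa using he)
      have h1 : S.mate (e + 1) ∉ α := hα.simple _ hm
      have hs' : S.mate (e + 1) ∉ V := fun h3 => hs ((hV _).1 h3)
      have h2 : S.mate (e + 1) - 1 ∉ α := fun h2 => h1 ((hα1.straight hs').2 h2)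
      have := S.col_straight_of_one hr.face (q := e + 1) (hr.off _ h1) (hr.off _ h2)
      simpa using this
  have hconst : ∀ e, e ∈ α → col r e = col r x := by
    intro e he
    obtain ⟨l, rfl⟩ := hα.orbit e he
    clear he
    induction l with
    | zero => rfl
    | succ l ih =>
      rw [Function.iterate_succ_apply', hstep _ (hα.iter_mem l), ih]
  intro e he e' he'
  rw [hconst e he, hconst e' he']

/-- Every loop contains a passage of `V`. -/
theorem exists_mem_cls [NeZero n] {V : Set (ZMod (2 * n))} (hV : S.NonCross V)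
    (hne : V.Nonempty) (e : ZMod (2 * n)) : ∃ x ∈ V, S.Same V x e := by
  obtain ⟨v, hv⟩ := hne
  have key : ∀ (k : ℕ) (e : ZMod (2 * n)), e - k ∈ V → ∃ x ∈ V, S.Same V x e := by
    intro k
    induction k with
    | zero =>
      intro e he
      exact ⟨e, by simpa using he, Same.refl S V e⟩
    | succ k ih =>
      intro e he
      by_cases h : e ∈ V
      · exact ⟨e, h, Same.refl S V e⟩
      · obtain ⟨x, hx, h1⟩ := ih (e - 1) (by
          rw [show e - 1 - (k : ZMod (2 * n)) = e - ((k + 1 : ℕ) : ZMod (2 * n)) by push_cast; ring]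
          exact he)
        exact ⟨x, hx, h1.trans (S.same_straight hV h).symm⟩
  have h1 := key (e - v).val e (by
    rw [ZMod.natCast_val, ZMod.cast_id', id]
    simpa using hv)
  exact h1

theorem cls_congr {V : Set (ZMod (2 * n))} {e e' : ZMod (2 * n)} (h : S.Same V e e') :
    S.cls V e = S.cls V e' := by
  ext z
  exact ⟨fun h1 => Same.trans (Same.symm h) h1, fun h1 => Same.trans h h1⟩

theorem disj_cls {V : Set (ZMod (2 * n))} {e e' : ZMod (2 * n)} (h : ¬ S.Same V e e') :
    Disjoint (S.cls V e) (S.cls V e') :=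
  Set.disjoint_left.2 fun _ h1 h2 => h (Same.trans h1 (Same.symm h2))

/-- A passage on a loop outside `X`, which is not smoothed for `X`, is not in `V`. -/
theorem notMem_of_notMem_smX {V X : Set (ZMod (2 * n))} {q : ZMod (2 * n)} (h1 : q ∉ SmX V X)
    (h2 : q ∉ X) : q ∉ V := fun h => h1 ⟨h, fun h3 => h2 h3.1⟩

/-- Attaching one loop. -/
theorem one_step [NeZero n] {V X : Set (ZMod (2 * n))} (hV : S.MaxNC V) (hX : S.Valid V X)
    (hJ : ∀ (C : Set (ZMod (2 * n))), S.Bal C → ∀ (a₀ : ZMod (2 * n) × Bool) (b₀ : Bool),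
      ∃ f, S.IsSide C f ∧ f a₀ = b₀)
    {x : ZMod (2 * n)} (hx : x ∈ V) (h1 : x - 1 ∈ X) (h2 : x ∉ X) {ov : ZMod (2 * n) → Bool}
    (hov : ∀ q, ov (S.mate q) = !ov q)
    (hover : ∀ q, q ∉ V → q ∈ S.cls V x → S.mate q ∈ X → ov q = true)
    (hg : S.Good (SmX V X) X ov) :
    S.Valid V (X ∪ S.cls V x) ∧ S.Good (SmX V (X ∪ S.cls V x)) (X ∪ S.cls V x) ov := by
  obtain ⟨h3, h4⟩ := S.valid_insert hV hX hx h1 h2
  obtain ⟨h5, h6⟩ := S.isLoop_smX hV hX hx h2
  refine ⟨h3, ?_⟩
  rw [h4]
  obtain ⟨f, hf, hfx⟩ := hJ _ (S.bal_cls hV x) (x, true) true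
  refine top_insert (S.mc_smX hV hX) (S.closed_smX hV hX) h5 h6 h1 hf hfx ?_ hov hg
  intro q hq hqx hqX
  exact hover q (notMem_of_notMem_smX hq fun h => Set.disjoint_left.1 h6 h hqx) hqx hqX

/-- Attaching two loops at once. -/
theorem two_step [NeZero n] {V X : Set (ZMod (2 * n))} (hV : S.MaxNC V) (hPF : S.PairFlip)
    (hJ : ∀ (C : Set (ZMod (2 * n))), S.Bal C → ∀ (a₀ : ZMod (2 * n) × Bool) (b₀ : Bool),
      ∃ f, S.IsSide C f ∧ f a₀ = b₀)
    {x y : ZMod (2 * n)} (hx : x ∈ V) (hy : y ∈ V) (hxy : ¬ S.Same V x y)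
    (hx0 : x ∉ X) (hW : S.Valid V (X ∪ S.cls V y)) (hxW : x - 1 ∈ X ∪ S.cls V y)
    {ov : ZMod (2 * n) → Bool} (hov : ∀ q, ov (S.mate q) = !ov q)
    (hyS : ∀ q ∈ S.cls V y, q ∈ V → q ≠ y → q ∈ SmX V (X ∪ S.cls V y ∪ S.cls V x))
    (hover : ∀ q, q ∉ V → (q ∈ S.cls V x ∨ q ∈ S.cls V y) → S.mate q ∈ X →
      S.mate q ∉ S.cls V x → S.mate q ∉ S.cls V y → ov q = true)
    (hXx : Disjoint X (S.cls V x)) (hXy : Disjoint X (S.cls V y))
    {f : ZMod (2 * n) × Bool → Bool} (hf : S.IsSide (S.cls V x) f) (hfy : f (y, true) = false)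
    (hcons : ∀ (q : ZMod (2 * n)) (l : ℕ), q ∈ S.Crs V (S.cls V x) (S.cls V y) →
      f (q, true) = true → 0 < l → (S.nxt V)^[l] q ∈ S.Crs V (S.cls V x) (S.cls V y) →
      (∀ l', 0 < l' → l' < l → (S.nxt V)^[l'] q ∉ S.Crs V (S.cls V x) (S.cls V y)) →
      ov ((S.nxt V)^[l] q) = ov q)
    (hgood : ∀ ov' : ZMod (2 * n) → Bool, (∀ q, ov' (S.mate q) = !ov' q) →
      (∀ q, (q ∈ V ∨ (¬ (q ∈ S.cls V x ∧ S.mate q ∈ S.cls V y) ∧
        ¬ (q ∈ S.cls V y ∧ S.mate q ∈ S.cls V x))) → ov' q = ov q) →
      S.Good (SmX V (X ∪ S.cls V y)) (X ∪ S.cls V y) ov') :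
    S.Valid V (X ∪ S.cls V y ∪ S.cls V x) ∧
      S.Good (SmX V (X ∪ S.cls V y ∪ S.cls V x)) (X ∪ S.cls V y ∪ S.cls V x) ov := by
  have hd := S.disj_cls hxy
  have hxW' : x ∉ X ∪ S.cls V y := by
    rintro (h | h)
    · exact hx0 h
    · exact hxy (Same.symm h)
  obtain ⟨hY, hSY⟩ := S.valid_insert hV hW hx hxW hxW'
  refine ⟨hY, ?_⟩
  refine hPF V (SmX V (X ∪ S.cls V y ∪ S.cls V x)) (X ∪ S.cls V y ∪ S.cls V x) (S.cls V x)
    (S.cls V y) x y ov f hV.1.mc (S.mc_smX hV hY) (fun p hp => hp.1) (S.closed_smX hV hY)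
    (S.isLoop_cls hV hx) (S.isLoop_cls hV hy) hd (fun e he => Or.inr he)
    (fun e he => Or.inl (Or.inr he)) ?_ hyS hf hfy hov ?_ hcons ?_
  · intro q hq hqV hne
    rw [hSY]
    refine ⟨⟨hqV, fun h => ?_⟩, ?_⟩
    · rcases h.1 with h1 | h1
      · exact Set.disjoint_left.1 hXx h1 hq
      · exact Set.disjoint_left.1 hd hq h1
    · rintro (h | h)
      · exact hne h
      · rw [Set.mem_singleton_iff] at h
        rw [h] at hq
        exact S.not_same_mate hV x hq
  · rintro q hq hqq ((h | h) | h) h1 h2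
    · exact hover q hq hqq h h1 h2
    · exact absurd h h2
    · exact absurd h h1
  · intro ov' hov' h1 h2
    refine (S.one_step hV hW hJ hx hxW hxW' hov' ?_ (hgood ov' hov' h2)).2
    rintro q hq hqx (h | h)
    · have h3 : S.mate q ∉ S.cls V x := fun h3 => Set.disjoint_left.1 hXx h h3
      have h4 : S.mate q ∉ S.cls V y := fun h4 => Set.disjoint_left.1 hXy h h4
      rw [h2 q (Or.inr ⟨fun h5 => h4 h5.2, fun h5 => h3 h5.2⟩)]
      exact hover q hq (Or.inl hqx) h h3 h4
    · exact h1 q hq hqx h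

end Code

/-- **Growth.** -/
theorem growth [NeZero n] (S : Shadow n) {V : Set (ZMod (2 * n))} (hV : S.toCode.MaxNC V)
    (hVne : V.Nonempty) {τ : ZMod (2 * n) → ℕ} {ov : ZMod (2 * n) → Bool}
    (hPF : S.toCode.PairFlip)
    (hJ : ∀ (C : Set (ZMod (2 * n))), S.toCode.Bal C → ∀ (a₀ : ZMod (2 * n) × Bool) (b₀ : Bool),
      ∃ f, S.toCode.IsSide C f ∧ f a₀ = b₀)
    (hτ1 : ∀ e e', S.toCode.Same V e e' → τ e = τ e')
    (hτ2 : ∀ e, 1 ≤ τ e → ∃ p ∈ V, (S.toCode.Same V p e ∧ τ (p - 1) < τ e) ∨
      (S.toCode.Same V (p - 1) e ∧ τ p < τ e))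
    (hτ4 : ∀ e e' e'', τ e = τ e' → τ e = τ e'' →
      S.toCode.Same V e e' ∨ S.toCode.Same V e e'' ∨ S.toCode.Same V e' e'')
    (hov : ∀ q, ov (S.mate q) = !ov q)
    (hF1 : ∀ q, q ∉ V → τ (S.mate q) < τ q → ov q = true)
    (hF2 : ∀ e e', τ e = τ e' → ¬ S.toCode.Same V e e' → ∃ x ∈ V, ∃ y ∈ V, τ x = τ e ∧ τ y = τ e ∧
      ¬ S.toCode.Same V x y ∧
      ((τ (x - 1) < τ e ∧ τ (y - 1) < τ e) ∨ (τ e = 0 ∧ y = S.mate x)) ∧
      ∃ f : ZMod (2 * n) × Bool → Bool, S.toCode.IsSide (S.toCode.cls V x) f ∧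
        f (y, true) = false ∧
        ∀ (q : ZMod (2 * n)) (l : ℕ), q ∈ S.toCode.Crs V (S.toCode.cls V x) (S.toCode.cls V y) →
          f (q, true) = true → 0 < l →
          (S.nxt V)^[l] q ∈ S.toCode.Crs V (S.toCode.cls V x) (S.toCode.cls V y) →
          (∀ l', 0 < l' → l' < l →
            (S.nxt V)^[l'] q ∉ S.toCode.Crs V (S.toCode.cls V x) (S.toCode.cls V y)) →
          ov ((S.nxt V)^[l] q) = ov q) :
    S.toCode.Good ∅ Set.univ ov := by
  have key : ∀ t : ℕ, S.toCode.Valid V {e | τ e < t} ∧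
      S.toCode.Good (Code.SmX V {e | τ e < t}) {e | τ e < t} ov := by
    intro t
    induction t with
    | zero =>
      have h0 : {e : ZMod (2 * n) | τ e < 0} = ∅ := by
        ext e; simp
      rw [h0]
      exact ⟨S.toCode.valid_empty V, fun G _ r _ e he => absurd he (Set.notMem_empty _)⟩
    | succ t ih =>
      obtain ⟨hX, hg⟩ := ih
      set X : Set (ZMod (2 * n)) := {e | τ e < t} with hXdef
      have hnX : ∀ {e}, τ e = t → e ∉ X := fun {e} he h => by
        have : τ e < t := h
        omega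
      have hdis : ∀ {e}, τ e = t → Disjoint X (S.toCode.cls V e) := fun {e} he =>
        Set.disjoint_left.2 fun e' h1 h2 => by
          have h3 : τ e' < t := h1
          have h4 := hτ1 e e' h2
          omega
      by_cases hA : ∃ e, τ e = t
      swap
      · have h1 : {e | τ e < t + 1} = X := by
          ext e
          refine ⟨fun h => ?_, fun h => ?_⟩
          · have h2 : τ e < t + 1 := h
            have h3 : τ e ≠ t := fun h3 => hA ⟨e, h3⟩
            show τ e < t
            omega
          · have h2 : τ e < t := h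
            show τ e < t + 1
            omega
        rw [h1]
        exact ⟨hX, hg⟩
      obtain ⟨e, he⟩ := hA
      by_cases hB : ∀ e', τ e' = t → S.toCode.Same V e e'
      · -- one class
        have hone : ∀ x, S.toCode.Same V x e → {e | τ e < t + 1} = X ∪ S.toCode.cls V x := by
          intro x hxe
          ext e'
          refine ⟨fun h => ?_, fun h => ?_⟩
          · have h2 : τ e' < t + 1 := h
            rcases Nat.lt_or_ge (τ e') t with h3 | h3
            · exact Or.inl h3
            · exact Or.inr (Code.Same.trans hxe (hB e' (by omega)))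
          · show τ e' < t + 1
            rcases h with h | h
            · have : τ e' < t := h
              omega
            · have h1 := hτ1 x e' h
              have h2 := hτ1 x e hxe
              omega
        rcases Nat.eq_zero_or_pos t with ht | ht
        · obtain ⟨x, hx, hxe⟩ := S.toCode.exists_mem_cls hV.1 hVne e
          rw [hone x hxe]
          have hX0 : X = ∅ := by
            ext e'
            rw [hXdef, ht]
            simp
          rw [hX0, Set.empty_union]
          obtain ⟨h1, h2⟩ := S.toCode.valid_cls hV x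
          rw [h2]
          exact ⟨h1, Code.root_good hV.1.mc (S.toCode.isLoop_cls hV hx) ov⟩
        · obtain ⟨x, hx, hxe, hx1⟩ : ∃ x ∈ V, S.toCode.Same V x e ∧ τ (x - 1) < t := by
            obtain ⟨p, hp, h | h⟩ := hτ2 e (by omega)
            · exact ⟨p, hp, h.1, by omega⟩
            · refine ⟨S.mate p, (hV.1.mc p).2 hp, (S.toCode.same_turn hV.1 hp).trans h.1, ?_⟩
              have h1 := S.toCode.same_turn hV.1 ((hV.1.mc p).2 hp)
              rw [S.toCode.mate_mate] at h1
              have h2 := hτ1 _ _ h1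
              omega
          have hτx : τ x = t := by rw [hτ1 x e hxe, he]
          rw [hone x hxe]
          refine S.toCode.one_step hV hX hJ hx hx1 (hnX hτx) hov ?_ hg
          intro q hq h1 h2
          have h3 : τ (S.mate q) < t := h2
          have h4 := hτ1 x q h1
          exact hF1 q hq (by omega)
      · -- two classes
        push Not at hB
        obtain ⟨e', he', hne⟩ := hB
        obtain ⟨x, hx, y, hy, hτx, hτy, hxy, hatt, f, hf, hfy, hcons⟩ :=
          hF2 e e' (by rw [he, he']) hne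
        rw [he] at hτx hτy hatt
        have htwo : {e | τ e < t + 1} = X ∪ S.toCode.cls V y ∪ S.toCode.cls V x := by
          ext z
          refine ⟨fun h => ?_, fun h => ?_⟩
          · have h2 : τ z < t + 1 := h
            rcases Nat.lt_or_ge (τ z) t with h3 | h3
            · exact Or.inl (Or.inl h3)
            · rcases hτ4 x y z (by omega) (by omega) with h4 | h4 | h4
              · exact absurd h4 hxy
              · exact Or.inr h4
              · exact Or.inl (Or.inr h4)
          · show τ z < t + 1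
            rcases h with (h | h) | h
            · have : τ z < t := h
              omega
            · have h1 := hτ1 y z h
              omega
            · have h1 := hτ1 x z h
              omega
        have hxy' : ¬ S.toCode.Same V y x := fun h => hxy (Code.Same.symm h)
        have hover : ∀ q, q ∉ V → (q ∈ S.toCode.cls V x ∨ q ∈ S.toCode.cls V y) →
            S.mate q ∈ X → ov q = true := by
          intro q hq hqq h
          have h1 : τ (S.mate q) < t := h
          rcases hqq with h2 | h2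
          · have h3 := hτ1 x q h2
            exact hF1 q hq (by omega)
          · have h3 := hτ1 y q h2
            exact hF1 q hq (by omega)
        rw [htwo]
        rcases hatt with ⟨hx1, hy1⟩ | ⟨ht, hyx⟩
        · have hx1' : x - 1 ∈ X := hx1
          have hy1' : y - 1 ∈ X := hy1
          obtain ⟨hW, hSW⟩ := S.toCode.valid_insert hV hX hy hy1' (hnX hτy)
          obtain ⟨hW', hSW'⟩ := S.toCode.valid_insert hV hX hx hx1' (hnX hτx)
          have hyW' : y ∉ X ∪ S.toCode.cls V x := by
            rintro (h | h)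
            · exact hnX hτy h
            · exact hxy h
          obtain ⟨hY', hSY'⟩ := S.toCode.valid_insert hV hW' hy (Or.inl hy1') hyW'
          refine S.toCode.two_step hV hPF hJ hx hy hxy (hnX hτx) hW (Or.inl hx1') hov ?_
            (fun q hq hqq h _ _ => hover q hq hqq h) (hdis hτx) (hdis hτy) hf hfy hcons ?_
          · intro q hq hqV hqy
            rw [Set.union_right_comm, hSY']
            refine ⟨⟨hqV, fun h => ?_⟩, ?_⟩
            · rcases h.1 with h1 | h1
              · exact Set.disjoint_left.1 (hdis hτy) h1 hq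
              · exact Set.disjoint_left.1 (S.toCode.disj_cls hxy) h1 hq
            · rintro (h | h)
              · exact hqy h
              · rw [Set.mem_singleton_iff] at h
                rw [h] at hq
                exact S.toCode.not_same_mate hV y hq
          · intro ov' hov' h1
            refine (S.toCode.one_step hV hX hJ hy hy1' (hnX hτy) hov' ?_ ?_).2
            · intro q hq hqy hqX
              have h3 : S.mate q ∉ S.toCode.cls V x := fun h3 =>
                Set.disjoint_left.1 (hdis hτx) hqX h3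
              have h4 : S.mate q ∉ S.toCode.cls V y := fun h4 =>
                Set.disjoint_left.1 (hdis hτy) hqX h4
              rw [h1 q (Or.inr ⟨fun h5 => h4 h5.2, fun h5 => h3 h5.2⟩)]
              exact hover q hq (Or.inr hqy) hqX
            · refine Code.Good.congr (ov' := ov) ?_ hg
              intro q _ hqX _ h2
              have h3 : q ∉ S.toCode.cls V x := fun h3 => Set.disjoint_left.1 (hdis hτx) hqX h3
              have h4 : q ∉ S.toCode.cls V y := fun h4 => Set.disjoint_left.1 (hdis hτy) hqX h4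
              rw [h1 q (Or.inr ⟨fun h5 => h3 h5.1, fun h5 => h4 h5.1⟩)]
              exact h2
        · subst hyx
          have hX0 : X = ∅ := by
            ext z
            rw [hXdef, ht]
            simp
          rw [hX0] at hover hdis ⊢
          obtain ⟨h1, h2⟩ := S.toCode.valid_cls hV (S.mate x)
          have h3 : ∅ ∪ S.toCode.cls V (S.mate x) = S.toCode.cls V (S.mate x) := Set.empty_union _
          have hx1 : x - 1 ∈ S.toCode.cls V (S.mate x) := S.toCode.same_turn hV.1 hx
          obtain ⟨h4, h5⟩ := S.toCode.valid_insert hV h1 hx hx1 (fun h => hxy (Code.Same.symm h))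
          refine S.toCode.two_step hV hPF hJ hx hy hxy (Set.notMem_empty _) (by rw [h3]; exact h1)
            (by rw [h3]; exact hx1) hov ?_ (fun q hq hqq h _ _ => hover q hq hqq h) (hdis hτx)
            (hdis hτy) hf hfy hcons ?_
          · intro q hq hqV hqy
            rw [h3, h5, h2]
            refine ⟨hqV, ?_⟩
            rintro (h | h)
            · rw [h] at hq
              exact hxy (Code.Same.symm hq)
            · exact hqy h
          · intro ov' _ _
            rw [h3, h2]
            exact Code.root_good hV.1.mc (S.toCode.isLoop_cls hV hy) ov'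
  obtain ⟨t, ht⟩ : ∃ t, ∀ e, τ e < t := by
    obtain ⟨t, ht⟩ := (Set.finite_range τ).bddAbove
    exact ⟨t + 1, fun e => Nat.lt_succ_of_le (ht ⟨e, rfl⟩)⟩
  have h1 : {e | τ e < t} = Set.univ := by
    ext e
    simp [ht e]
  have h2 := (key t).2
  rw [h1, Code.valid_univ] at h2
  exact h2

end Pool.Agent.Helper50.UK
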