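import Pool.Agent.Helper50.UK.Sd

/-! Maximal non-crossing families of double points. -/

set_option autoImplicit false
open Classical
namespace Pool.Agent.Helper50.UK
variable {n : ℕ}

namespace Code
variable (S : Code n)

/-! ### values in `ZMod N` -/

theorem vsub {N : ℕ} [NeZero N] (z a : ZMod N) :
    (z - a).val = if a.val ≤ z.val then z.val - a.val else z.val + N - a.val := by
  split_ifs with h
  · exact ZMod.val_sub h
  · have h1 : z.val ≤ a.val := by omega
    have h2 := ZMod.val_sub h1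
    have h3 : z - a = -(a - z) := by ring
    have h4 : a - z ≠ 0 := by
      intro h0
      have h5 : a = z := sub_eq_zero.1 h0
      rw [h5] at h
      exact h le_rfl
    rw [h3, ZMod.neg_val, if_neg h4, h2]
    have h5 := a.val_lt
    omega

theorem val_pos' {N : ℕ} [NeZero N] {x : ZMod N} (h : x ≠ 0) : 0 < x.val := by
  rcases Nat.eq_zero_or_pos x.val with h0 | h0
  · exact absurd ((ZMod.val_eq_zero x).1 h0) h
  · exact h0

theorem val_one' [NeZero n] : (1 : ZMod (2 * n)).val = 1 := by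
  have : Fact (1 < 2 * n) := ⟨by have := NeZero.pos n; omega⟩
  exact ZMod.val_one (2 * n)

theorem val_pred [NeZero n] {x : ZMod (2 * n)} (h : x ≠ 0) : (x - 1).val = x.val - 1 := by
  have h1 := val_pos' h
  rw [vsub, val_one', if_pos (by omega)]

theorem dpos [NeZero n] (a : ZMod (2 * n)) : 0 < (S.mate a - a).val :=
  val_pos' (sub_ne_zero.2 (S.mate_ne a))

theorem sd_self [NeZero n] (a : ZMod (2 * n)) : S.sd a a := by
  have := S.dpos a
  simpa [sd] using this

theorem not_sd_mate [NeZero n] (a : ZMod (2 * n)) : ¬ S.sd a (S.mate a) := lt_irrefl _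

theorem not_sd_pred [NeZero n] (a : ZMod (2 * n)) : ¬ S.sd a (a - 1) := by
  unfold sd
  have h1 : a - 1 - a = -1 := by ring
  have h2 : (1 : ZMod (2 * n)) ≠ 0 := by
    intro h
    have := val_one' (n := n)
    rw [h, ZMod.val_zero] at this
    omega
  have h3 := (S.mate a - a).val_lt
  rw [h1, ZMod.neg_val, if_neg h2, val_one']
  omega

theorem sd_mate_pred [NeZero n] (a : ZMod (2 * n)) : S.sd a (S.mate a - 1) := by
  unfold sd
  have h1 : S.mate a - 1 - a = S.mate a - a - 1 := by ring
  have h2 := S.dpos a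
  rw [h1, val_pred (sub_ne_zero.2 (S.mate_ne a))]
  omega

theorem sd_step [NeZero n] {a z : ZMod (2 * n)} (h1 : z ≠ a) (h2 : z ≠ S.mate a) :
    S.sd a z ↔ S.sd a (z - 1) := by
  unfold sd
  have h3 : z - 1 - a = z - a - 1 := by ring
  have h4 : (z - a).val ≠ (S.mate a - a).val := by
    intro h
    exact h2 (sub_left_injective (ZMod.val_injective _ h))
  rw [h3, val_pred (sub_ne_zero.2 h1)]
  have h5 := val_pos' (sub_ne_zero.2 h1)
  omega

theorem sd_mate [NeZero n] (a z : ZMod (2 * n)) : S.sd (S.mate a) z ↔ ¬ S.sd a z := by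
  unfold sd
  rw [S.mate_mate]
  have h1 : z - S.mate a = (z - a) - (S.mate a - a) := by ring
  have h2 : a - S.mate a = -(S.mate a - a) := by ring
  have h3 := S.dpos a
  have h4 : S.mate a - a ≠ 0 := sub_ne_zero.2 (S.mate_ne a)
  have h5 := (S.mate a - a).val_lt
  have h6 := (z - a).val_lt
  rw [h1, h2, ZMod.neg_val, if_neg h4, vsub]
  split_ifs <;> omega

theorem cross_symm [NeZero n] {a c : ZMod (2 * n)} (h1 : c ≠ a) (h2 : c ≠ S.mate a) :
    (S.sd a c ↔ S.sd a (S.mate c)) ↔ (S.sd c a ↔ S.sd c (S.mate a)) := by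
  unfold sd
  have e1 : a - c = -(c - a) := by ring
  have e2 : S.mate c - c = (S.mate c - a) - (c - a) := by ring
  have e3 : S.mate a - c = (S.mate a - a) - (c - a) := by ring
  have n1 : c - a ≠ 0 := sub_ne_zero.2 h1
  have n2 : (c - a).val ≠ (S.mate a - a).val := fun h =>
    h2 (sub_left_injective (ZMod.val_injective _ h))
  have n3 : S.mate c ≠ a := fun h => h2 ((S.mate_eq_iff).1 h)
  have n4 : (S.mate c - a).val ≠ (S.mate a - a).val := fun h =>
    h1 (S.mate_inj (sub_left_injective (ZMod.val_injective _ h)))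
  have n5 : (S.mate c - a).val ≠ (c - a).val := fun h =>
    S.mate_ne c (sub_left_injective (ZMod.val_injective _ h))
  have p1 := val_pos' n1
  have p2 := val_pos' (sub_ne_zero.2 n3)
  have p3 := S.dpos a
  have q1 := (c - a).val_lt
  have q2 := (S.mate c - a).val_lt
  have q3 := (S.mate a - a).val_lt
  rw [e1, e2, e3, ZMod.neg_val, if_neg n1, vsub (S.mate c - a), vsub (S.mate a - a)]
  split_ifs <;> omega

/-- every non-crossing set is contained in a maximal one; the empty set is one, and for `n ≠ 0` a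
maximal one is nonempty -/
theorem exists_maxNC [NeZero n] {V₀ : Set (ZMod (2 * n))} (h : S.NonCross V₀) :
    ∃ V, V₀ ⊆ V ∧ S.MaxNC V := by
  obtain ⟨V, hV, hmax⟩ := Finite.exists_le_maximal (p := S.NonCross) h
  refine ⟨V, hV, hmax.prop, fun c hc => ?_⟩
  by_contra hcon
  push Not at hcon
  have hcon' : ∀ a ∈ V, (S.sd a c ↔ S.sd a (S.mate c)) := fun a ha => by
    have := hcon a ha
    tauto
  have hN := hmax.prop
  have hc' : S.mate c ∉ V := fun h => hc ((hN.mc c).1 h)
  have key : S.NonCross (V ∪ {c, S.mate c}) := by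
    constructor
    · intro q
      constructor
      · rintro (h | h | h)
        · exact Or.inl ((hN.mc q).1 h)
        · exact Or.inr (Or.inr ((S.mate_eq_iff).1 h))
        · exact Or.inr (Or.inl (S.mate_inj h))
      · rintro (h | h | h)
        · exact Or.inl ((hN.mc q).2 h)
        · exact Or.inr (Or.inr (by rw [h]; rfl))
        · exact Or.inr (Or.inl (by rw [h, S.mate_mate]))
    · have hcb : ∀ b ∈ V, (S.sd c b ↔ S.sd c (S.mate b)) := by
        intro b hb
        have h1 : c ≠ b := fun h => hc (h ▸ hb)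
        have h2 : c ≠ S.mate b := fun h => hc (h ▸ (hN.mc b).2 hb)
        exact (S.cross_symm h1 h2).1 (hcon' b hb)
      rintro a (ha | ha | ha) b (hb | hb | hb) h1 h2
      · exact hN.nc a ha b hb h1 h2
      · rw [hb]
        exact hcon' a ha
      · rw [Set.mem_singleton_iff] at hb
        rw [hb, S.mate_mate]
        exact (hcon' a ha).symm
      · rw [ha]
        exact hcb b hb
      · exact absurd (hb.trans ha.symm) h1
      · rw [Set.mem_singleton_iff] at hb
        exact absurd (by rw [hb, ha]) h2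
      · rw [Set.mem_singleton_iff] at ha
        rw [ha, S.sd_mate, S.sd_mate, hcb b hb]
      · rw [Set.mem_singleton_iff] at ha
        exact absurd (by rw [hb, ha, S.mate_mate]) h2
      · rw [Set.mem_singleton_iff] at ha hb
        exact absurd (hb.trans ha.symm) h1
  exact hc (hmax.le_of_ge key Set.subset_union_left (Or.inr (Or.inl rfl)))

theorem MaxNC.nonempty [NeZero n] {V : Set (ZMod (2 * n))} (h : S.MaxNC V) : V.Nonempty := by
  by_contra hcon
  rw [Set.not_nonempty_iff_eq_empty] at hcon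
  subst hcon
  obtain ⟨a, ha, -⟩ := h.2 0 (Set.notMem_empty 0)
  exact ha

variable {S} in
theorem Same.symm {V : Set (ZMod (2 * n))} {e e' : ZMod (2 * n)} (h : S.Same V e e') :
    S.Same V e' e := fun a ha => (h a ha).symm

variable {S} in
theorem Same.trans {V : Set (ZMod (2 * n))} {e e' e'' : ZMod (2 * n)} (h : S.Same V e e')
    (h' : S.Same V e' e'') : S.Same V e e'' := fun a ha => (h a ha).trans (h' a ha)

theorem Same.refl (V : Set (ZMod (2 * n))) (e : ZMod (2 * n)) : S.Same V e e := fun _ _ => Iff.rfl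

theorem same_straight [NeZero n] {V : Set (ZMod (2 * n))} (hV : S.NonCross V) {z : ZMod (2 * n)}
    (hz : z ∉ V) : S.Same V z (z - 1) := fun a ha =>
  S.sd_step (fun h => hz (h ▸ ha)) (fun h => hz (h ▸ (hV.mc a).2 ha))

theorem same_turn [NeZero n] {V : Set (ZMod (2 * n))} (hV : S.NonCross V) {z : ZMod (2 * n)}
    (hz : z ∈ V) : S.Same V (S.mate z) (z - 1) := by
  intro a ha
  by_cases h1 : z = a
  · subst h1
    exact iff_of_false (S.not_sd_mate z) (S.not_sd_pred z)
  · by_cases h2 : z = S.mate a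
    · have h3 : a = S.mate z := (S.mate_eq_iff).1 h2.symm
      subst h3
      refine iff_of_true (S.sd_self _) ?_
      rw [S.sd_mate]
      exact S.not_sd_pred z
    · exact (hV.nc a ha z hz h1 h2).symm.trans (S.sd_step h1 h2)

theorem not_same_pred [NeZero n] {V : Set (ZMod (2 * n))} {z : ZMod (2 * n)}
    (hz : z ∈ V) : ¬ S.Same V z (z - 1) := fun h =>
  S.not_sd_pred z ((h z hz).1 (S.sd_self z))

theorem not_same_mate [NeZero n] {V : Set (ZMod (2 * n))} (hV : S.MaxNC V) (z : ZMod (2 * n)) :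
    ¬ S.Same V z (S.mate z) := by
  intro h
  by_cases hz : z ∈ V
  · exact S.not_sd_mate z ((h z hz).1 (S.sd_self z))
  · obtain ⟨a, ha, h1⟩ := hV.2 z hz
    exact h1 (h a ha)

theorem same_nxt [NeZero n] {V : Set (ZMod (2 * n))} (hV : S.NonCross V) (e : ZMod (2 * n)) :
    S.Same V (S.nxt V e) e := by
  by_cases h : e + 1 ∈ V
  · rw [S.nxt_pos h]
    have := S.same_turn hV h
    rwa [add_sub_cancel_right] at this
  · rw [S.nxt_neg h]
    have := S.same_straight hV h
    rwa [add_sub_cancel_right] at this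

theorem same_orbit [NeZero n] {V : Set (ZMod (2 * n))} (hV : S.NonCross V) (d : ℕ) :
    ∀ e e' : ZMod (2 * n), S.Same V e e' → (e' - e).val = d → ∃ l : ℕ, e' = (S.nxt V)^[l] e := by
  induction d using Nat.strong_induction_on with
  | _ d ih =>
    intro e e' hs hd
    rcases Nat.eq_zero_or_pos d with h0 | h0
    · refine ⟨0, ?_⟩
      rw [h0] at hd
      exact sub_eq_zero.1 ((ZMod.val_eq_zero _).1 hd)
    · have hne : e' - e ≠ 0 := by
        intro h
        rw [h, ZMod.val_zero] at hd
        omega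
      have h1 : (e' - (e + 1)).val = d - 1 := by
        rw [show e' - (e + 1) = e' - e - 1 by ring, val_pred hne, hd]
      by_cases h : e + 1 ∈ V
      · have h2 : ¬ S.sd (e + 1) e' := by
          intro h3
          have h4 := (hs _ h).2 h3
          have h5 := S.not_sd_pred (e + 1)
          rw [add_sub_cancel_right] at h5
          exact h5 h4
        have h3 := S.dpos (e + 1)
        unfold sd at h2
        have h4 : (e' - S.mate (e + 1)).val < d := by
          rw [show e' - S.mate (e + 1) = (e' - (e + 1)) - (S.mate (e + 1) - (e + 1)) by ring, vsub,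
            if_pos (by omega)]
          omega
        obtain ⟨l, hl⟩ := ih _ h4 (S.mate (e + 1)) e' (by
          have := S.same_turn hV h
          rw [add_sub_cancel_right] at this
          exact this.trans hs) rfl
        refine ⟨l + 1, ?_⟩
        rw [Function.iterate_succ_apply, S.nxt_pos h]
        exact hl
      · obtain ⟨l, hl⟩ := ih (d - 1) (by omega) (e + 1) e' (by
          have := S.same_straight hV h
          rw [add_sub_cancel_right] at this
          exact this.trans hs) h1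
        refine ⟨l + 1, ?_⟩
        rw [Function.iterate_succ_apply, S.nxt_neg h]
        exact hl

theorem isLoop_cls [NeZero n] {V : Set (ZMod (2 * n))} (hV : S.MaxNC V) {z : ZMod (2 * n)}
    (hz : z ∈ V) : S.IsLoop V (S.cls V z) z := by
  refine ⟨fun e => ⟨fun h => ?_, fun h => ?_⟩, Same.refl S V z, fun e he => ?_, fun q hq h => ?_, hz⟩
  · exact Same.trans h (S.same_nxt hV.1 e)
  · exact Same.trans h (S.same_nxt hV.1 e).symm
  · exact S.same_orbit hV.1 _ z e he rfl
  · exact S.not_same_mate hV q (Same.trans (Same.symm hq) h)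

theorem valid_empty [NeZero n] (V : Set (ZMod (2 * n))) : S.Valid V ∅ :=
  ⟨fun _ _ _ h => absurd h (Set.notMem_empty _), fun _ _ _ h => absurd h (Set.notMem_empty _)⟩

theorem smX_empty (V : Set (ZMod (2 * n))) : SmX V ∅ = V := by
  ext p
  simp [SmX]

theorem valid_cls [NeZero n] {V : Set (ZMod (2 * n))} (hV : S.MaxNC V) (x : ZMod (2 * n)) :
    S.Valid V (S.cls V x) ∧ SmX V (S.cls V x) = V := by
  have hne := hV.nonempty
  have h1 : SmX V (S.cls V x) = V := by
    ext p
    refine ⟨fun h => h.1, fun h => ⟨h, fun h2 => ?_⟩⟩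
    exact S.not_same_pred h (Same.trans (Same.symm h2.1) h2.2)
  refine ⟨⟨fun e e' hs he => Same.trans he hs, fun p hp e he e' he' => ?_⟩, h1⟩
  exact (Same.trans (Same.symm he) he') p hp.1

theorem Valid.mem_iff {V X : Set (ZMod (2 * n))} (hX : S.Valid V X) {e e' : ZMod (2 * n)}
    (h : S.Same V e e') : e ∈ X ↔ e' ∈ X := ⟨hX.sat _ _ h, hX.sat _ _ h.symm⟩

theorem mc_smX [NeZero n] {V X : Set (ZMod (2 * n))} (hV : S.MaxNC V) (hX : S.Valid V X) :
    S.MC (SmX V X) := by
  have key : ∀ q, q ∈ V → ((S.mate q ∈ X ∧ S.mate q - 1 ∈ X) ↔ (q ∈ X ∧ q - 1 ∈ X)) := by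
    intro q hq
    have h1 := hX.mem_iff S (S.same_turn hV.1 hq)
    have h2 := hX.mem_iff S (S.same_turn hV.1 ((hV.1.mc q).2 hq))
    rw [S.mate_mate] at h2
    rw [h1, ← h2]
    tauto
  intro q
  constructor
  · rintro ⟨h1, h2⟩
    have h3 := (hV.1.mc q).1 h1
    exact ⟨h3, fun h => h2 ((key q h3).2 h)⟩
  · rintro ⟨h1, h2⟩
    exact ⟨(hV.1.mc q).2 h1, fun h => h2 ((key q h1).1 h)⟩

theorem closed_smX [NeZero n] {V X : Set (ZMod (2 * n))} (hV : S.MaxNC V) (hX : S.Valid V X) :
    S.Closed (SmX V X) X := by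
  intro e
  by_cases h : e + 1 ∈ SmX V X
  · rw [S.nxt_pos h]
    have := hX.mem_iff S (S.same_turn hV.1 h.1)
    rwa [add_sub_cancel_right] at this
  · rw [S.nxt_neg h]
    by_cases h1 : e + 1 ∈ V
    · have h2 : e + 1 ∈ X ∧ e + 1 - 1 ∈ X := by
        by_contra h3
        exact h ⟨h1, h3⟩
      rw [add_sub_cancel_right] at h2
      exact iff_of_true h2.1 h2.2
    · have := hX.mem_iff S (S.same_straight hV.1 h1)
      rwa [add_sub_cancel_right] at this

/-- all loops disjoint from `X` are loops for the smoothing `SmX V X` -/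
theorem isLoop_smX [NeZero n] {V X : Set (ZMod (2 * n))} (hV : S.MaxNC V) (hX : S.Valid V X)
    {x : ZMod (2 * n)} (hx : x ∈ V) (hxX : x ∉ X) :
    S.IsLoop (SmX V X) (S.cls V x) x ∧ Disjoint X (S.cls V x) := by
  have hL := S.isLoop_cls hV hx
  have hdis : ∀ e, e ∈ S.cls V x → e ∉ X := fun e he h => hxX (hX.sat _ _ (Same.symm he) h)
  have hn : ∀ e, e ∈ S.cls V x → S.nxt (SmX V X) e = S.nxt V e := by
    intro e he
    by_cases h1 : e + 1 ∈ V
    · have h2 : e + 1 ∈ SmX V X := ⟨h1, fun h => hdis e he (by simpa using h.2)⟩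
      rw [S.nxt_pos h1, S.nxt_pos h2]
    · rw [S.nxt_neg h1, S.nxt_neg fun h => h1 h.1]
  have hn' : ∀ e, S.nxt (SmX V X) e ∈ S.cls V x → S.nxt (SmX V X) e = S.nxt V e := by
    intro e he
    by_cases h1 : e + 1 ∈ SmX V X
    · rw [S.nxt_pos h1, S.nxt_pos h1.1]
    · rw [S.nxt_neg h1] at he ⊢
      have h2 : e + 1 ∉ V := fun h2 => h1 ⟨h2, fun h => hdis _ he h.1⟩
      rw [S.nxt_neg h2]
  refine ⟨⟨fun e => ⟨fun h => ?_, fun h => ?_⟩, hL.mem, fun e he => ?_, hL.simple, ?_⟩, ?_⟩
  · exact (hL.closed e).1 (by rw [← hn' e h]; exact h)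
  · rw [hn e h]
    exact (hL.closed e).2 h
  · obtain ⟨l, rfl⟩ := hL.orbit e he
    refine ⟨l, ?_⟩
    clear he
    induction l with
    | zero => rfl
    | succ l ih =>
      rw [Function.iterate_succ_apply', Function.iterate_succ_apply', ← ih, hn _ (hL.iter_mem l)]
  · exact ⟨hx, fun h => hxX h.1⟩
  · exact Set.disjoint_left.2 fun e h1 h2 => hdis e h2 h1

/-- one loop is attached at `x` -/
theorem valid_insert [NeZero n] {V X : Set (ZMod (2 * n))} (hV : S.MaxNC V) (hX : S.Valid V X)
    {x : ZMod (2 * n)} (hx : x ∈ V) (h1 : x - 1 ∈ X) (h2 : x ∉ X) :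
    S.Valid V (X ∪ S.cls V x) ∧ SmX V (X ∪ S.cls V x) = SmX V X \ {x, S.mate x} := by
  have hxS : x ∈ SmX V X := ⟨hx, fun h => h2 h.1⟩
  have k1 : ∀ p, p ∈ V → p ∈ S.cls V x → p - 1 ∈ X → p = x := by
    intro p hp h3 h4
    by_contra hne
    have hne' : p ≠ S.mate x := by
      rintro rfl
      exact S.not_same_mate hV x h3
    have h5 : S.sd x p := (h3 x hx).1 (S.sd_self x)
    have h6 := (S.sd_step hne hne').1 h5
    exact S.not_sd_pred x ((hX.side x hxS _ h4 _ h1).1 h6)
  have k2 : ∀ p, p ∈ V → p ∈ X → p - 1 ∈ S.cls V x → p = S.mate x := by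
    intro p hp h3 h4
    have h5 : S.mate p ∈ S.cls V x := Same.trans h4 (S.same_turn hV.1 hp).symm
    have h6 : S.mate p - 1 ∈ X := by
      have := S.same_turn hV.1 ((hV.1.mc p).2 hp)
      rw [S.mate_mate] at this
      exact hX.sat _ _ this h3
    have h7 := k1 (S.mate p) ((hV.1.mc p).2 hp) h5 h6
    exact (S.mate_eq_iff).1 h7
  have hmx : S.mate x ∈ X := hX.sat _ _ (S.same_turn hV.1 hx).symm h1
  have hmx' : S.mate x - 1 ∈ S.cls V x := by
    have := S.same_turn hV.1 ((hV.1.mc x).2 hx)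
    rwa [S.mate_mate] at this
  have hS : SmX V (X ∪ S.cls V x) = SmX V X \ {x, S.mate x} := by
    ext p
    constructor
    · rintro ⟨h3, h4⟩
      refine ⟨⟨h3, fun h => h4 ⟨Or.inl h.1, Or.inl h.2⟩⟩, ?_⟩
      rintro (rfl | h5)
      · exact h4 ⟨Or.inr (Same.refl S V p), Or.inl h1⟩
      · rw [Set.mem_singleton_iff] at h5
        subst h5
        exact h4 ⟨Or.inl hmx, Or.inr hmx'⟩
    · rintro ⟨⟨h3, h4⟩, h5⟩
      refine ⟨h3, ?_⟩
      rintro ⟨h6 | h6, h7 | h7⟩
      · exact h4 ⟨h6, h7⟩
      · exact h5 (Or.inr (k2 p h3 h6 h7))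
      · exact h5 (Or.inl (k1 p h3 h6 h7))
      · exact S.not_same_pred h3 (Same.trans (Same.symm h6) h7)
  refine ⟨⟨?_, ?_⟩, hS⟩
  · rintro e e' hs (he | he)
    · exact Or.inl (hX.sat _ _ hs he)
    · exact Or.inr (Same.trans he hs)
  · rw [hS]
    rintro p ⟨hp, hpx⟩
    have hpx1 : x ≠ p := fun h => hpx (Or.inl h.symm)
    have hpx2 : x ≠ S.mate p := fun h => hpx (Or.inr (by
      rw [Set.mem_singleton_iff, h, S.mate_mate]))
    have key : ∀ e ∈ X ∪ S.cls V x, (S.sd p e ↔ S.sd p x) := by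
      rintro e (he | he)
      · exact (hX.side p hp e he _ h1).trans (S.sd_step hpx1 hpx2).symm
      · exact (he p hp.1).symm
    intro e he e' he'
    exact (key e he).trans (key e' he').symm

/-- the root loop and a loop attached to it at `x`, where `x - 1` is in the root -/
theorem valid_univ [NeZero n] {V : Set (ZMod (2 * n))} : SmX V Set.univ = ∅ := by
  ext p
  simp [SmX]

end Code
end Pool.Agent.Helper50.UK
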